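import Mathlib
import Pool.Agent.Lib.MP_0d3a8b_co.Scale
import Pool.Agent.Lib.MP_0d3a8b_co.Kruskal

set_option autoImplicit false

/-!
The Steiner ratio of the triangular lattice: `l_MST(X) ≤ (4/3) l_SMT(X)` for every finite set `X`
of at least two lattice points.
-/

namespace Pool.Agent.Results.MP_0d3a8b_co.SteinerRatio

open Pool.Agent.Lib.MP_0d3a8b_co

/-- The vertex set of the triangular grid: integer triples with sum zero. -/
abbrev Lambda : Type := {x : Fin 3 → ℤ // x 0 + x 1 + x 2 = 0}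

/-- The triangular grid: two points are joined by an edge when their difference is a permutation
of `(1, -1, 0)`. -/
def grid : SimpleGraph Lambda where
  Adj A B := ∃ σ : Equiv.Perm (Fin 3), ∀ i, A.1 i - B.1 i = ![1, -1, 0] (σ i)
  symm := ⟨by
    rintro A B ⟨σ, h⟩
    refine ⟨σ.trans (Equiv.swap 0 1), fun i => ?_⟩
    have h1 := h i
    have h2 : ∀ j : Fin 3, (![1, -1, 0] : Fin 3 → ℤ) (Equiv.swap 0 1 j) = -![1, -1, 0] j := by
      decide
    rw [Equiv.trans_apply, h2]
    linarith⟩
  loopless := ⟨by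
    rintro A ⟨σ, h⟩
    have h1 := h (σ.symm 0)
    rw [Equiv.apply_symm_apply] at h1
    simp at h1⟩

/-- The lengths (numbers of edges) of the connected finite networks of grid edges containing
every point of `X`. -/
def networkLengths (X : Finset Lambda) : Set ℕ :=
  {n | ∃ H : grid.Subgraph, H.Connected ∧ (X : Set Lambda) ⊆ H.verts ∧ H.edgeSet.Finite ∧
    H.edgeSet.ncard = n}

/-- The length of a minimum Steiner tree for `X`. -/
noncomputable def lSMT (X : Finset Lambda) : ℕ := sInf (networkLengths X)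

/-- The grid distance of the two ends of an edge of the complete graph on `X`. -/
noncomputable def edgeLength (X : Finset Lambda) : Sym2 X → ℕ :=
  Sym2.lift ⟨fun A B => grid.dist (A : Lambda) (B : Lambda), fun _ _ => grid.dist_comm⟩

/-- The total weights of the spanning trees of the complete graph on `X`. -/
def treeWeights (X : Finset Lambda) : Set ℕ :=
  {n | ∃ (T : SimpleGraph X) (_ : Fintype T.edgeSet), T.IsTree ∧
    ∑ e ∈ T.edgeFinset, edgeLength X e = n}

/-- The weight of a minimum spanning tree of the complete graph on `X`. -/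
noncomputable def lMST (X : Finset Lambda) : ℕ := sInf (treeWeights X)

/-! ### Coordinates -/

/-- The first two coordinates. -/
def phi (A : Lambda) : Pt := (A.1 0, A.1 1)

/-- The point with given first two coordinates. -/
def psi (p : Pt) : Lambda := ⟨![p.1, p.2, -p.1 - p.2], by simp⟩

lemma phi_psi (p : Pt) : phi (psi p) = p := rfl

lemma psi_phi (A : Lambda) : psi (phi A) = A := by
  apply Subtype.ext
  funext i
  have := A.2
  obtain rfl | rfl | rfl := fin3_cases i
  · simp [psi, phi]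
  · simp [psi, phi]
  · simp [psi, phi]; linarith

lemma phi_inj : Function.Injective phi := fun A B h => by
  rw [← psi_phi A, ← psi_phi B, h]

lemma psi_inj : Function.Injective psi := fun p q h => by
  rw [← phi_psi p, ← phi_psi q, h]

lemma adj_of_diff {A B : Lambda} (h : UnitV ((phi A).1 - (phi B).1) ((phi A).2 - (phi B).2)) :
    grid.Adj A B := by
  have hA := A.2
  have hB := B.2
  simp only [phi] at h
  have key : ∀ σ : Equiv.Perm (Fin 3), A.1 0 - B.1 0 = ![1, -1, 0] (σ 0) →
      A.1 1 - B.1 1 = ![1, -1, 0] (σ 1) → A.1 2 - B.1 2 = ![1, -1, 0] (σ 2) → grid.Adj A B := by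
    intro σ h0 h1 h2
    refine ⟨σ, fun i => ?_⟩
    obtain rfl | rfl | rfl := fin3_cases i
    · exact h0
    · exact h1
    · exact h2
  rcases h with ⟨h1, h2⟩ | ⟨h1, h2⟩ | ⟨h1, h2⟩ | ⟨h1, h2⟩ | ⟨h1, h2⟩ | ⟨h1, h2⟩
  · -- (1, 0, -1)
    refine key (Equiv.swap 1 2) ?_ ?_ ?_
    · rw [h1]; decide
    · rw [h2]; decide
    · have : A.1 2 - B.1 2 = -1 := by linarith
      rw [this]; decide
  · -- (0, 1, -1)
    refine key ((Equiv.swap 0 2).trans (Equiv.swap 0 1)) ?_ ?_ ?_
    · rw [h1]; decide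
    · rw [h2]; decide
    · have : A.1 2 - B.1 2 = -1 := by linarith
      rw [this]; decide
  · -- (1, -1, 0)
    refine key (Equiv.refl _) ?_ ?_ ?_
    · rw [h1]; decide
    · rw [h2]; decide
    · have : A.1 2 - B.1 2 = 0 := by linarith
      rw [this]; decide
  · -- (-1, 0, 1)
    refine key ((Equiv.swap 0 1).trans (Equiv.swap 0 2)) ?_ ?_ ?_
    · rw [h1]; decide
    · rw [h2]; decide
    · have : A.1 2 - B.1 2 = 1 := by linarith
      rw [this]; decide
  · -- (0, -1, 1)
    refine key (Equiv.swap 0 2) ?_ ?_ ?_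
    · rw [h1]; decide
    · rw [h2]; decide
    · have : A.1 2 - B.1 2 = 1 := by linarith
      rw [this]; decide
  · -- (-1, 1, 0)
    refine key (Equiv.swap 0 1) ?_ ?_ ?_
    · rw [h1]; decide
    · rw [h2]; decide
    · have : A.1 2 - B.1 2 = 0 := by linarith
      rw [this]; decide

lemma diff_of_adj {A B : Lambda} (h : grid.Adj A B) :
    UnitV ((phi A).1 - (phi B).1) ((phi A).2 - (phi B).2) := by
  obtain ⟨σ, h⟩ := h
  simp only [phi]
  rw [h 0, h 1]
  clear h
  revert σ
  decide

lemma exists_step (n : ℕ) (p q : Pt) (h : Near ((n + 1 : ℕ) : ℤ) p q) :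
    Near n p q ∨ ∃ p' : Pt, UnitV (p'.1 - p.1) (p'.2 - p.2) ∧ Near n p' q := by
  push_cast at h
  unfold Near at h
  rcases lt_trichotomy (p.1 - q.1) 0 with h1 | h1 | h1
  · rcases lt_or_ge 0 (p.2 - q.2) with h2 | h2
    · refine Or.inr ⟨(p.1 + 1, p.2 - 1), Or.inr (Or.inr (Or.inl ⟨?_, ?_⟩)), ?_⟩
      · simp
      · simp
      · simp only [Near]; omega
    · refine Or.inr ⟨(p.1 + 1, p.2), Or.inl ⟨?_, ?_⟩, ?_⟩
      · simp
      · simp
      · simp only [Near]; omega
  · rcases lt_trichotomy (p.2 - q.2) 0 with h2 | h2 | h2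
    · refine Or.inr ⟨(p.1, p.2 + 1), Or.inr (Or.inl ⟨?_, ?_⟩), ?_⟩
      · simp
      · simp
      · simp only [Near]; omega
    · left
      simp only [Near]; omega
    · refine Or.inr ⟨(p.1, p.2 - 1), Or.inr (Or.inr (Or.inr (Or.inr (Or.inl ⟨?_, ?_⟩)))), ?_⟩
      · simp
      · simp
      · simp only [Near]; omega
  · rcases lt_or_ge (p.2 - q.2) 0 with h2 | h2
    · refine Or.inr ⟨(p.1 - 1, p.2 + 1), Or.inr (Or.inr (Or.inr (Or.inr (Or.inr ⟨?_, ?_⟩)))), ?_⟩
      · simp
      · simp
      · simp only [Near]; omega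
    · refine Or.inr ⟨(p.1 - 1, p.2), Or.inr (Or.inr (Or.inr (Or.inl ⟨?_, ?_⟩))), ?_⟩
      · simp
      · simp
      · simp only [Near]; omega

lemma exists_walk (n : ℕ) : ∀ p q : Pt, Near n p q →
    ∃ w : grid.Walk (psi p) (psi q), w.length ≤ n := by
  induction n with
  | zero =>
    intro p q h
    have : p = q := by
      simp only [Near, Nat.cast_zero] at h
      ext <;> omega
    subst this
    exact ⟨SimpleGraph.Walk.nil, le_rfl⟩
  | succ n ih =>
    intro p q h
    rcases exists_step n p q h with h1 | ⟨p', h1, h2⟩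
    · obtain ⟨w, hw⟩ := ih p q h1
      exact ⟨w, by omega⟩
    · obtain ⟨w, hw⟩ := ih p' q h2
      have hadj : grid.Adj (psi p') (psi p) := adj_of_diff (by rw [phi_psi, phi_psi]; exact h1)
      exact ⟨SimpleGraph.Walk.cons hadj.symm w, by
        rw [SimpleGraph.Walk.length_cons]; omega⟩

lemma dist_le_of_near {n : ℕ} {A B : Lambda} (h : Near n (phi A) (phi B)) :
    grid.dist A B ≤ n := by
  obtain ⟨w, hw⟩ := exists_walk n (phi A) (phi B) h
  have h1 := (SimpleGraph.dist_le w).trans hw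
  rwa [psi_phi, psi_phi] at h1

lemma grid_preconnected : grid.Preconnected := by
  intro A B
  let n : ℕ := ((phi A).1 - (phi B).1).natAbs + ((phi A).2 - (phi B).2).natAbs
  obtain ⟨w, _⟩ := exists_walk n (phi A) (phi B) (by
    simp only [Near, n]
    omega)
  have h : grid.Reachable (psi (phi A)) (psi (phi B)) := ⟨w⟩
  rwa [psi_phi, psi_phi] at h

/-- Every finite nonempty set is contained in a finite connected network. -/
lemma networkLengths_nonempty (X : Finset Lambda) (hX : X.Nonempty) :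
    (networkLengths X).Nonempty := by
  obtain ⟨t, h1, h2⟩ := grid.extend_finset_to_connected grid_preconnected hX
  refine ⟨_, (⊤ : grid.Subgraph).induce (t : Set Lambda), ?_, ?_, ?_, rfl⟩
  · rw [SimpleGraph.Subgraph.connected_iff]
    refine ⟨SimpleGraph.preconnected_induce_iff.1 h2.preconnected, ?_⟩
    obtain ⟨x, hx⟩ := hX
    exact ⟨x, h1 hx⟩
  · simpa using h1
  · refine Set.Finite.subset (t.sym2.finite_toSet) ?_
    intro e he
    induction e with
    | _ x y =>
      rw [SimpleGraph.Subgraph.mem_edgeSet] at he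
      rw [Finset.mem_coe, Finset.mk_mem_sym2_iff]
      exact ⟨he.1, he.2.1⟩

/-! ### Networks in coordinates -/

/-- The edges of `H`, each recorded by its lower end and its direction. -/
def edgeSetOf (H : grid.Subgraph) : Set (Pt × Fin 3) :=
  {e | H.Adj (psi e.1) (psi (sh e.1 (dir e.2) 1))}

lemma edgeSetOf_inj : Function.Injective
    (fun e : Pt × Fin 3 => s(psi e.1, psi (sh e.1 (dir e.2) 1))) := by
  rintro ⟨p, i⟩ ⟨q, j⟩ h
  simp only [Sym2.eq_iff] at h
  rcases h with ⟨h1, h2⟩ | ⟨h1, h2⟩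
  · have h1 := psi_inj h1
    subst h1
    have h2 := psi_inj h2
    have : i = j := by
      obtain rfl | rfl | rfl := fin3_cases i <;> obtain rfl | rfl | rfl := fin3_cases j <;>
        simp [sh, dir0, dir1, dir2] at h2 ⊢
    rw [this]
  · have h1 := psi_inj h1
    have h2 := psi_inj h2
    exfalso
    rw [h1] at h2
    obtain rfl | rfl | rfl := fin3_cases i <;> obtain rfl | rfl | rfl := fin3_cases j <;>
        simp only [sh, dir0, dir1, dir2, Prod.ext_iff] at h2 <;> omega

lemma edgeSetOf_finite {H : grid.Subgraph} (h : H.edgeSet.Finite) : (edgeSetOf H).Finite := by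
  refine Set.Finite.of_finite_image (f := fun e : Pt × Fin 3 =>
    s(psi e.1, psi (sh e.1 (dir e.2) 1))) ?_ (edgeSetOf_inj.injOn)
  refine h.subset ?_
  rintro _ ⟨e, he, rfl⟩
  rw [SimpleGraph.Subgraph.mem_edgeSet]
  exact he

lemma edgeSetOf_ncard {H : grid.Subgraph} (h : H.edgeSet.Finite) :
    (edgeSetOf H).ncard ≤ H.edgeSet.ncard := by
  rw [← Set.ncard_image_of_injective _ edgeSetOf_inj]
  refine Set.ncard_le_ncard ?_ h
  rintro _ ⟨e, he, rfl⟩
  rw [SimpleGraph.Subgraph.mem_edgeSet]
  exact he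

lemma exists_edge {H : grid.Subgraph} {A B : Lambda} (h : H.Adj A B) :
    ∃ e ∈ edgeSetOf H, (e.1 = phi A ∧ sh e.1 (dir e.2) 1 = phi B) ∨
      (e.1 = phi B ∧ sh e.1 (dir e.2) 1 = phi A) := by
  have key : ∀ (A B : Lambda) (i : Fin 3), H.Adj A B → phi B = sh (phi A) (dir i) 1 →
      (phi A, i) ∈ edgeSetOf H := by
    intro A B i hAB hi
    have h2 : H.Adj (psi (phi A)) (psi (sh (phi A) (dir i) 1)) := by
      rw [← hi, psi_phi, psi_phi]
      exact hAB
    exact h2
  have h1 := diff_of_adj (H.adj_sub h)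
  rcases h1 with ⟨h1, h2⟩ | ⟨h1, h2⟩ | ⟨h1, h2⟩ | ⟨h1, h2⟩ | ⟨h1, h2⟩ | ⟨h1, h2⟩
  · have e : phi A = sh (phi B) (dir 0) 1 := by
      ext <;> simp only [sh, dir0] <;> linarith
    exact ⟨_, key B A 0 h.symm e, Or.inr ⟨rfl, e.symm⟩⟩
  · have e : phi A = sh (phi B) (dir 1) 1 := by
      ext <;> simp only [sh, dir1] <;> linarith
    exact ⟨_, key B A 1 h.symm e, Or.inr ⟨rfl, e.symm⟩⟩
  · have e : phi A = sh (phi B) (dir 2) 1 := by
      ext <;> simp only [sh, dir2] <;> linarith
    exact ⟨_, key B A 2 h.symm e, Or.inr ⟨rfl, e.symm⟩⟩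
  · have e : phi B = sh (phi A) (dir 0) 1 := by
      ext <;> simp only [sh, dir0] <;> linarith
    exact ⟨_, key A B 0 h e, Or.inl ⟨rfl, e.symm⟩⟩
  · have e : phi B = sh (phi A) (dir 1) 1 := by
      ext <;> simp only [sh, dir1] <;> linarith
    exact ⟨_, key A B 1 h e, Or.inl ⟨rfl, e.symm⟩⟩
  · have e : phi B = sh (phi A) (dir 2) 1 := by
      ext <;> simp only [sh, dir2] <;> linarith
    exact ⟨_, key A B 2 h e, Or.inl ⟨rfl, e.symm⟩⟩

lemma mem_verts_of_adj {H : grid.Subgraph} {E : Finset (Pt × Fin 3)}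
    (hE : ∀ e, e ∈ E ↔ e ∈ edgeSetOf H) {A B : Lambda} (h : H.Adj A B) : phi A ∈ verts E := by
  obtain ⟨e, he, h1 | h1⟩ := exists_edge h
  · rw [← h1.1]
    exact fst_mem_verts ((hE e).2 he)
  · rw [← h1.2]
    exact snd_mem_verts ((hE e).2 he)

lemma psi_mem_verts {H : grid.Subgraph} {E : Finset (Pt × Fin 3)}
    (hE : ∀ e, e ∈ E ↔ e ∈ edgeSetOf H) {a : Pt} (ha : a ∈ verts E) : psi a ∈ H.verts := by
  unfold verts at ha
  rw [Finset.mem_union, Finset.mem_image, Finset.mem_image] at ha
  rcases ha with ⟨e, he, rfl⟩ | ⟨e, he, rfl⟩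
  · exact H.edge_vert ((hE e).1 he)
  · exact H.edge_vert (H.adj_symm ((hE e).1 he))

lemma econn {H : grid.Subgraph} (hH : H.Connected) {E : Finset (Pt × Fin 3)}
    (hE : ∀ e, e ∈ E ↔ e ∈ edgeSetOf H) : EConn E := by
  intro a ha b hb
  have h1 := hH.preconnected.coe ⟨psi a, psi_mem_verts hE ha⟩ ⟨psi b, psi_mem_verts hE hb⟩
  have key : ∀ u v : H.verts, H.coe.Reachable u v → Relation.ReflTransGen (fun x y => ∃ e ∈ E,
      (e.1 = x ∧ sh e.1 (dir e.2) 1 = y) ∨ (e.1 = y ∧ sh e.1 (dir e.2) 1 = x))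
      (phi u) (phi v) := by
    rintro u v ⟨w⟩
    induction w with
    | nil => exact Relation.ReflTransGen.refl
    | cons hadj _ ih =>
      refine Relation.ReflTransGen.head ?_ ih
      rw [SimpleGraph.Subgraph.coe_adj] at hadj
      obtain ⟨e, he, h2⟩ := exists_edge hadj
      exact ⟨e, (hE e).2 he, h2⟩
  have h2 := key _ _ h1
  simpa only [phi_psi] using h2

/-! ### The main theorem -/

/-- The label of a point of the plane at threshold `t`: the component of the threshold graph. -/
def lab (X : Finset Lambda) (t : ℕ) (p : Pt) : Set X :=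
  {v | ∃ x : X, phi x = p ∧ (thr (edgeLength X) t).Reachable x v}

lemma lab_phi (X : Finset Lambda) (t : ℕ) (x : X) :
    lab X t (phi x) = {v | (thr (edgeLength X) t).Reachable x v} := by
  ext v
  constructor
  · rintro ⟨y, hy, h⟩
    have : y = x := Subtype.ext (phi_inj hy)
    rw [this] at h
    exact h
  · intro h
    exact ⟨x, rfl, h⟩

lemma card_comp_le (X : Finset Lambda) (t : ℕ) [DecidableEq (Set X)] :
    Nat.card (thr (edgeLength X) t).ConnectedComponent ≤
      ((X.image phi).image (lab X t)).card := by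
  have hsupp : ∀ C : (thr (edgeLength X) t).ConnectedComponent,
      C.supp ∈ (X.image phi).image (lab X t) := by
    intro C
    induction C using SimpleGraph.ConnectedComponent.ind with
    | _ x =>
      rw [Finset.mem_image]
      refine ⟨phi x, Finset.mem_image_of_mem _ x.2, ?_⟩
      rw [lab_phi]
      ext v
      rw [SimpleGraph.ConnectedComponent.mem_supp_iff, SimpleGraph.ConnectedComponent.eq]
      exact ⟨fun h => h.symm, fun h => h.symm⟩
  have h1 : Nat.card (thr (edgeLength X) t).ConnectedComponent ≤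
      Nat.card {s // s ∈ (X.image phi).image (lab X t)} := by
    refine Nat.card_le_card_of_injective (fun C => ⟨C.supp, hsupp C⟩) ?_
    intro C C' h
    exact SimpleGraph.ConnectedComponent.supp_injective (congrArg Subtype.val h)
  rwa [Nat.card_eq_fintype_card (α := {s // s ∈ (X.image phi).image (lab X t)}),
    Fintype.card_coe] at h1

/-- For every connected network containing `X` there is a spanning tree of `X` of weight at most
`4/3` times the length of the network. -/
theorem tree_of_network (X : Finset Lambda) (hX : 2 ≤ X.card) {n : ℕ}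
    (hn : n ∈ networkLengths X) : ∃ m ∈ treeWeights X, 3 * m ≤ 4 * n := by
  classical
  obtain ⟨H, hH, hXH, hfin, rfl⟩ := hn
  obtain ⟨x0, hx0, y0, hy0, hxy0⟩ := Finset.one_lt_card.1 (show 1 < X.card by omega)
  have hXne : X.Nonempty := ⟨x0, hx0⟩
  have : Nonempty X := ⟨⟨x0, hx0⟩⟩
  -- all pairs are joined at a large threshold
  let D : ℕ := ∑ e : Sym2 X, edgeLength X e
  have hD : (thr (edgeLength X) D).Connected := by
    refine ⟨fun a b => ?_⟩
    by_cases hab : a = b
    · rw [hab]
    · exact SimpleGraph.Adj.reachable ⟨hab, Finset.single_le_sum (f := edgeLength X)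
        (fun _ _ => Nat.zero_le _) (Finset.mem_univ _)⟩
  obtain ⟨T, inst, hT, hw⟩ := kruskal (edgeLength X) D hD
  refine ⟨_, ⟨T, inst, hT, rfl⟩, ?_⟩
  -- the network in coordinates
  let E : Finset (Pt × Fin 3) := (edgeSetOf_finite hfin).toFinset
  have hE : ∀ e, e ∈ E ↔ e ∈ edgeSetOf H := fun e => Set.Finite.mem_toFinset _
  have hEcard : E.card ≤ H.edgeSet.ncard := by
    rw [← Set.ncard_eq_toFinset_card _ (edgeSetOf_finite hfin)]
    exact edgeSetOf_ncard hfin
  have hverts : X.image phi ⊆ verts E := by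
    intro p hp
    rw [Finset.mem_image] at hp
    obtain ⟨x, hx, rfl⟩ := hp
    have hnt : Nontrivial H.verts :=
      ⟨⟨⟨x0, hXH hx0⟩, ⟨y0, hXH hy0⟩, fun h => hxy0 (congrArg Subtype.val h)⟩⟩
    obtain ⟨u, hu⟩ := hH.preconnected.exists_adj_of_nontrivial ⟨x, hXH hx⟩
    exact mem_verts_of_adj hE hu
  have hkey := steiner_key E (econn hH hE) (X.image phi) hverts (hXne.image _) (lab X) (by
    intro t p hp q hq hpq
    rw [Finset.mem_image] at hp hq
    obtain ⟨x, hx, rfl⟩ := hp
    obtain ⟨y, hy, rfl⟩ := hq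
    have h1 : (thr (edgeLength X) t).Reachable (⟨x, hx⟩ : X) ⟨y, hy⟩ := by
      by_cases hxy : (⟨x, hx⟩ : X) = ⟨y, hy⟩
      · rw [hxy]
      · exact SimpleGraph.Adj.reachable ⟨hxy, dist_le_of_near hpq⟩
    have e1 := lab_phi X t ⟨x, hx⟩
    have e2 := lab_phi X t ⟨y, hy⟩
    rw [e1, e2]
    ext v
    exact ⟨fun h => h1.symm.trans h, fun h => h1.trans h⟩) D
  have hle : ∑ t ∈ Finset.range D,
      (Nat.card (thr (edgeLength X) t).ConnectedComponent : ℤ) ≤
      ∑ t ∈ Finset.range D, ((((X.image phi).image (lab X t)).card : ℕ) : ℤ) := by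
    refine Finset.sum_le_sum fun t _ => ?_
    exact_mod_cast card_comp_le X t
  have hw' : ((∑ e ∈ T.edgeFinset, edgeLength X e : ℕ) : ℤ) + D ≤
      ∑ t ∈ Finset.range D, (Nat.card (thr (edgeLength X) t).ConnectedComponent : ℤ) := by
    exact_mod_cast hw
  rw [Finset.sum_sub_distrib, Finset.sum_const, Finset.card_range, nsmul_eq_mul, mul_one] at hkey
  have hEcard' : (E.card : ℤ) ≤ H.edgeSet.ncard := by exact_mod_cast hEcard
  have hfinal : (3 : ℤ) * ((∑ e ∈ T.edgeFinset, edgeLength X e : ℕ) : ℤ) ≤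
      4 * (H.edgeSet.ncard : ℤ) := by
    linarith
  exact_mod_cast hfinal

/-- The set of weights of spanning trees is not empty, so `lMST X` is a minimum. -/
lemma treeWeights_nonempty (X : Finset Lambda) (hX : 2 ≤ X.card) : (treeWeights X).Nonempty := by
  have hne : X.Nonempty := Finset.card_pos.1 (by omega)
  obtain ⟨n, hn⟩ := networkLengths_nonempty X hne
  obtain ⟨m, hm, _⟩ := tree_of_network X hX hn
  exact ⟨m, hm⟩

/-- **The Steiner ratio of the triangular lattice.** For every finite set `X` of at least two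
points of the triangular grid, the weight of a minimum spanning tree is at most `4/3` times the
length of a minimum Steiner tree. -/
theorem result : ∀ X : Finset Lambda, 2 ≤ X.card → (lMST X : ℝ) ≤ 4 / 3 * (lSMT X : ℝ) := by
  intro X hX
  have hne : X.Nonempty := Finset.card_pos.1 (by omega)
  obtain ⟨m, hm, h⟩ := tree_of_network X hX (Nat.sInf_mem (networkLengths_nonempty X hne))
  have h1 : lMST X ≤ m := Nat.sInf_le hm
  have h2 : 3 * lMST X ≤ 4 * lSMT X := by
    have : 3 * m ≤ 4 * lSMT X := h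
    omega
  have h3 : (3 : ℝ) * lMST X ≤ 4 * lSMT X := by exact_mod_cast h2
  linarith

end Pool.Agent.Results.MP_0d3a8b_co.SteinerRatio
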